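import Mathlib

set_option autoImplicit false

open Finset Filter Topology

namespace Pool.Agent.H1R3.Det

/-- `e(t) = exp(2π i t)`. -/
noncomputable def e (t : ℝ) : ℂ := Complex.exp (2 * Real.pi * Complex.I * t)

lemma norm_e (t : ℝ) : ‖e t‖ = 1 := by
  unfold e
  rw [show (2 * Real.pi * Complex.I * t : ℂ) = ((2 * Real.pi * t : ℝ) : ℂ) * Complex.I by
    push_cast; ring]
  exact Complex.norm_exp_ofReal_mul_I _

lemma e_add (s t : ℝ) : e (s + t) = e s * e t := by
  unfold e
  rw [← Complex.exp_add]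
  congr 1
  push_cast; ring

lemma e_zero : e 0 = 1 := by simp [e]

lemma e_neg (t : ℝ) : e (-t) = (starRingEnd ℂ) (e t) := by
  unfold e
  rw [← Complex.exp_conj]
  congr 1
  simp only [map_mul, Complex.conj_I, Complex.conj_ofReal, map_ofNat]
  push_cast; ring

lemma e_sum {ι : Type*} (s : Finset ι) (f : ι → ℝ) : e (∑ i ∈ s, f i) = ∏ i ∈ s, e (f i) := by
  classical
  induction s using Finset.induction_on with
  | empty => simp [e_zero]
  | insert a s ha ih => rw [sum_insert ha, prod_insert ha, e_add, ih]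

lemma norm_one_add_e (t : ℝ) : ‖1 + e t‖ = 2 * |Real.cos (Real.pi * t)| := by
  have h : 1 + e t = e (t / 2) * ((2 * Real.cos (Real.pi * t) : ℝ) : ℂ) := by
    have h1 : ((2 * Real.cos (Real.pi * t) : ℝ) : ℂ) = e (t / 2) + e (-(t / 2)) := by
      unfold e
      push_cast
      rw [Complex.cos]
      have e1 : (2 * (Real.pi : ℂ) * Complex.I * ((t : ℂ) / 2)) = Real.pi * t * Complex.I := by ring
      have e2 : (2 * (Real.pi : ℂ) * Complex.I * (-((t : ℂ) / 2))) = -(Real.pi * t) * Complex.I := by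
        ring
      rw [e1, e2]; ring
    rw [h1, mul_add, ← e_add, ← e_add]
    have : t / 2 + t / 2 = t := by ring
    rw [this, add_neg_cancel, e_zero, add_comm]
  rw [h, norm_mul, norm_e, one_mul, Complex.norm_real, Real.norm_eq_abs, abs_mul]
  norm_num

/-- distance to the nearest integer -/
noncomputable def nd (t : ℝ) : ℝ := |t - round t|

lemma nd_le_of_int (t : ℝ) (m : ℤ) : nd t ≤ |t - m| := round_le t m

lemma nd_le_half (t : ℝ) : nd t ≤ 1 / 2 := abs_sub_round t

lemma nd_nonneg (t : ℝ) : 0 ≤ nd t := abs_nonneg _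

/-- triangle inequality -/
lemma nd_sub_ge (s t : ℝ) : nd s - |t| ≤ nd (s - t) := by
  have h := nd_le_of_int s (round (s - t))
  have h2 : |s - round (s - t)| ≤ |t| + |s - t - round (s - t)| := by
    have : s - round (s - t) = t + (s - t - round (s - t)) := by ring
    rw [this]
    exact abs_add_le _ _
  unfold nd at *
  linarith

lemma abs_cos_le {t κ : ℝ} (hκ0 : 0 ≤ κ) (hκ : κ ≤ nd t) :
    |Real.cos (Real.pi * t)| ≤ Real.cos (Real.pi * κ) := by
  have h1 : |Real.cos (Real.pi * t)| = Real.cos (Real.pi * nd t) := by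
    have h2 : Real.cos (Real.pi * nd t) = Real.cos (Real.pi * (t - round t)) := by
      unfold nd
      rcases abs_cases (t - round t) with ⟨h, _⟩ | ⟨h, _⟩
      · rw [h]
      · rw [h, mul_neg, Real.cos_neg]
    have h3 : |Real.cos (Real.pi * t)| = |Real.cos (Real.pi * (t - round t))| := by
      have : Real.pi * (t - round t) = Real.pi * t - (round t : ℤ) * Real.pi := by ring
      rw [this, Real.cos_sub_int_mul_pi, abs_mul, abs_zpow, abs_neg, abs_one, one_zpow, one_mul]
    rw [h3, ← h2]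
    apply abs_of_nonneg
    apply Real.cos_nonneg_of_mem_Icc
    have := nd_le_half t
    have := nd_nonneg t
    have := Real.pi_pos
    constructor <;> nlinarith
  rw [h1]
  apply Real.cos_le_cos_of_nonneg_of_le_pi
  · have := Real.pi_pos; positivity
  · have := nd_le_half t
    have := Real.pi_pos
    nlinarith
  · have := Real.pi_pos
    exact mul_le_mul_of_nonneg_left hκ this.le

/-- In every residue class mod `q`, the distances `‖x 2^m‖` are infinitely often not small. -/
lemma exists_nd_ge (x : ℝ) (hx : Irrational x) (q : ℕ) (hq : 0 < q) (c M : ℕ) :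
    ∃ m, M ≤ m ∧ m % q = c % q ∧ (1 / (4 * 2 ^ q) : ℝ) ≤ nd (x * 2 ^ m) := by
  by_contra hcon
  push Not at hcon
  -- start of the progression
  set m₀ : ℕ := c + q * M with hm₀
  have hm : ∀ i : ℕ, M ≤ m₀ + q * i ∧ (m₀ + q * i) % q = c % q := by
    intro i
    constructor
    · have : M ≤ q * M := Nat.le_mul_of_pos_left M hq
      omega
    · rw [hm₀, add_assoc, ← mul_add]; exact Nat.add_mul_mod_self_left _ _ _
  have hsmall : ∀ i : ℕ, nd (x * 2 ^ (m₀ + q * i)) < 1 / (4 * 2 ^ q) := fun i =>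
    hcon _ (hm i).1 (hm i).2
  set r : ℕ → ℤ := fun i => round (x * 2 ^ (m₀ + q * i)) with hr
  set d : ℕ → ℝ := fun i => x * 2 ^ (m₀ + q * i) - r i with hd
  have hdabs : ∀ i, |d i| < 1 / (4 * 2 ^ q) := hsmall
  have h2q : (1 : ℝ) ≤ 2 ^ q := one_le_pow₀ (by norm_num)
  have hstep : ∀ i, d (i + 1) = 2 ^ q * d i := by
    intro i
    have h1 : x * 2 ^ (m₀ + q * (i + 1)) = 2 ^ q * (x * 2 ^ (m₀ + q * i)) := by
      rw [mul_add, mul_one, ← add_assoc, pow_add _ (m₀ + q * i)]; ring
    have h2 : (r (i + 1) : ℝ) = 2 ^ q * r i := by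
      have h3 : |((r (i + 1) - 2 ^ q * r i : ℤ) : ℝ)| < 1 := by
        push_cast
        have : (r (i + 1) : ℝ) - 2 ^ q * r i = 2 ^ q * d i - d (i + 1) := by
          simp only [hd]; rw [h1]; ring
        rw [this]
        calc |2 ^ q * d i - d (i + 1)| ≤ |2 ^ q * d i| + |d (i + 1)| := abs_sub _ _
          _ = 2 ^ q * |d i| + |d (i + 1)| := by rw [abs_mul, abs_of_pos (by positivity : (0:ℝ) < 2 ^ q)]
          _ ≤ 2 ^ q * (1 / (4 * 2 ^ q)) + 1 / (4 * 2 ^ q) := by
              have := (hdabs i).le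
              have := (hdabs (i + 1)).le
              gcongr
          _ < 1 := by
              have : (1 : ℝ) / (4 * 2 ^ q) ≤ 1 / 4 := by
                apply one_div_le_one_div_of_le (by norm_num); linarith
              have h4 : (2 : ℝ) ^ q * (1 / (4 * 2 ^ q)) = 1 / 4 := by field_simp
              rw [h4]; linarith
      have h4 : (r (i + 1) - 2 ^ q * r i : ℤ) = 0 := by
        rw [← Int.abs_lt_one_iff]
        exact_mod_cast h3
      have h5 : r (i + 1) = 2 ^ q * r i := by linarith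
      rw [h5]; push_cast; ring
    simp only [hd]
    rw [h1, h2]; ring
  have hpow : ∀ i, d i = (2 ^ q) ^ i * d 0 := by
    intro i
    induction i with
    | zero => simp
    | succ i ih => rw [hstep, ih, pow_succ]; ring
  have hd0 : d 0 = 0 := by
    by_contra hne
    have hpos : 0 < |d 0| := abs_pos.mpr hne
    have h2q' : (1 : ℝ) < 2 ^ q := one_lt_pow₀ (by norm_num) hq.ne'
    obtain ⟨i, hi⟩ := pow_unbounded_of_one_lt (1 / |d 0|) h2q'
    have h1 := hdabs i
    rw [hpow, abs_mul, abs_of_pos (by positivity : (0:ℝ) < (2 ^ q) ^ i)] at h1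
    have h2 : 1 < (2 ^ q) ^ i * |d 0| := by
      rw [div_lt_iff₀ hpos] at hi; exact hi
    have h3 : (1 : ℝ) / (4 * 2 ^ q) ≤ 1 := by
      rw [div_le_one (by positivity)]; linarith
    linarith
  have h0 : x * 2 ^ m₀ = r 0 := by
    have : x * 2 ^ (m₀ + q * 0) - r 0 = 0 := hd0
    simpa [sub_eq_zero] using this
  have : x = ((r 0 / 2 ^ m₀ : ℚ) : ℝ) := by
    push_cast
    rw [← h0]
    field_simp
  exact hx ⟨_, this.symm⟩

end Pool.Agent.H1R3.Det
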