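import Pool.Agent.H1R3.Det.Stage

set_option autoImplicit false

open Finset Filter Topology

namespace Pool.Agent.H1R3.Det

variable (b : ℝ) (hb : Irrational b)

/-- choice of one stage -/
noncomputable def next (i : ℕ) (p : Finset ℕ × ℕ) : Finset ℕ × ℕ :=
  let h := stage b hb p.1 (2 ^ i) (by positivity) p.2 i 0 (δ := 1 / (i + 1)) (by positivity)
  (p.1 ∪ h.choose_spec.2.2.choose, h.choose)

lemma next_spec (i : ℕ) (p : Finset ℕ × ℕ) (hp : ∀ j ∈ p.1, j < p.2) :
    p.2 < (next b hb i p).2 ∧ p.1 ⊆ (next b hb i p).1 ∧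
    (∀ j ∈ (next b hb i p).1, j < (next b hb i p).2) ∧
    (∀ j ∈ (next b hb i p).1, p.2 ≤ j → 2 ^ i ∣ j) ∧
    (∀ j ∈ (next b hb i p).1, j < p.2 → j ∈ p.1) ∧
    (∀ h : ℤ, h ≠ 0 → |h| ≤ i →
      ‖W (h * b * yS (next b hb i p).1) (next b hb i p).2‖ ≤ 1 / (i + 1) * (next b hb i p).2) := by
  classical
  have hst := stage b hb p.1 (2 ^ i) (by positivity) p.2 i 0 (δ := 1 / (i + 1)) (by positivity)
  set B := hst.choose with hB
  have h1 := hst.choose_spec
  set T := h1.2.2.choose with hT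
  have h2 := h1.2.2.choose_spec
  have e1 : (next b hb i p).1 = p.1 ∪ T := rfl
  have e2 : (next b hb i p).2 = B := rfl
  rw [e1, e2]
  have hTmem : ∀ j ∈ T, p.2 ≤ j ∧ j < B ∧ 2 ^ i ∣ j := by
    intro j hj
    have := h2.1 hj
    rw [J, Finset.mem_filter, Finset.mem_Ico] at this
    exact ⟨this.1.1, this.1.2, this.2⟩
  refine ⟨h1.1, Finset.subset_union_left, ?_, ?_, ?_, ?_⟩
  · intro j hj
    rcases Finset.mem_union.mp hj with hj | hj
    · exact (hp j hj).trans h1.1
    · exact (hTmem j hj).2.1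
  · intro j hj hpj
    rcases Finset.mem_union.mp hj with hj | hj
    · exact absurd (hp j hj) (by omega)
    · exact (hTmem j hj).2.2
  · intro j hj hpj
    rcases Finset.mem_union.mp hj with hj | hj
    · exact hj
    · exact absurd (hTmem j hj).1 (by omega)
  · intro h hne habs
    have hdis : Disjoint p.1 T := by
      rw [Finset.disjoint_left]
      intro j hj1 hj2
      have := hp j hj1
      have := (hTmem j hj2).1
      omega
    have e3 : yS (p.1 ∪ T) = yS p.1 + yS T := by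
      unfold yS
      rw [Finset.sum_union hdis]
    rw [e3]
    exact h2.2 h hne habs

/-- the sequence of stages -/
noncomputable def st : ℕ → Finset ℕ × ℕ
  | 0 => (∅, 0)
  | i + 1 => next b hb i (st i)

lemma st_lt (i : ℕ) : ∀ j ∈ (st b hb i).1, j < (st b hb i).2 := by
  induction i with
  | zero => simp [st]
  | succ i ih => exact (next_spec b hb i (st b hb i) ih).2.2.1

lemma st_succ_spec (i : ℕ) :
    (st b hb i).2 < (st b hb (i + 1)).2 ∧ (st b hb i).1 ⊆ (st b hb (i + 1)).1 ∧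
    (∀ j ∈ (st b hb (i + 1)).1, (st b hb i).2 ≤ j → 2 ^ i ∣ j) ∧
    (∀ j ∈ (st b hb (i + 1)).1, j < (st b hb i).2 → j ∈ (st b hb i).1) ∧
    (∀ h : ℤ, h ≠ 0 → |h| ≤ i →
      ‖W (h * b * yS (st b hb (i + 1)).1) (st b hb (i + 1)).2‖ ≤
        1 / (i + 1) * (st b hb (i + 1)).2) := by
  have := next_spec b hb i (st b hb i) (st_lt b hb i)
  exact ⟨this.1, this.2.1, this.2.2.2.1, this.2.2.2.2.1, this.2.2.2.2.2⟩

lemma st_snd_strictMono : StrictMono (fun i => (st b hb i).2) :=
  strictMono_nat_of_lt_succ fun i => (st_succ_spec b hb i).1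

lemma le_st_snd (i : ℕ) : i ≤ (st b hb i).2 := (st_snd_strictMono b hb).id_le i

lemma st_fst_mono : Monotone (fun i => (st b hb i).1) :=
  monotone_nat_of_le_succ fun i => (st_succ_spec b hb i).2.1

/-- the set of digit positions -/
def DS : Set ℕ := {j | ∃ i, j ∈ (st b hb i).1}

lemma mem_DS_iff (i j : ℕ) (hj : j < (st b hb i).2) : j ∈ DS b hb ↔ j ∈ (st b hb i).1 := by
  constructor
  · rintro ⟨k, hk⟩
    rcases le_total k i with h | h
    · exact st_fst_mono b hb h hk
    · induction k, h using Nat.le_induction with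
      | base => exact hk
      | succ k hik ih =>
        apply ih
        exact (st_succ_spec b hb k).2.2.2.1 j hk
          (lt_of_lt_of_le hj ((st_snd_strictMono b hb).monotone hik))
  · exact fun h => ⟨i, h⟩

lemma DS_dvd (l j : ℕ) (hj : j ∈ DS b hb) (hl : (st b hb l).2 ≤ j) : 2 ^ l ∣ j := by
  obtain ⟨k, hk⟩ := hj
  induction k with
  | zero => simp [st] at hk
  | succ k ih =>
    by_cases h : (st b hb k).2 ≤ j
    · have h1 := (st_succ_spec b hb k).2.2.1 j hk h
      have h2 : l ≤ k := by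
        by_contra hcon
        push Not at hcon
        have h3 : (st b hb (k + 1)).2 ≤ (st b hb l).2 := (st_snd_strictMono b hb).monotone hcon
        have h4 := st_lt b hb (k + 1) j hk
        omega
      exact (pow_dvd_pow 2 h2).trans h1
    · push Not at h
      exact ih ((st_succ_spec b hb k).2.2.2.1 j hk h)

open Classical in
/-- the digits -/
noncomputable def dd (j : ℕ) : ℝ := if j ∈ DS b hb then 1 else 0

lemma dd_nonneg (j : ℕ) : 0 ≤ dd b hb j := by unfold dd; split_ifs <;> norm_num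
lemma dd_le_one (j : ℕ) : dd b hb j ≤ 1 := by unfold dd; split_ifs <;> norm_num

lemma summable_dd (n : ℕ) : Summable (fun j => dd b hb (j + n) / 2 ^ j) := by
  refine Summable.of_nonneg_of_le (fun j => div_nonneg (dd_nonneg b hb _) (by positivity))
    (fun j => ?_) (summable_geometric_two)
  rw [div_pow, one_pow]
  exact div_le_div_of_nonneg_right (dd_le_one b hb _) (by positivity)

/-- tails: `tl n = ∑_{j ≥ 0} d_{j+n} 2^{-j}` -/
noncomputable def tl (n : ℕ) : ℝ := ∑' j, dd b hb (j + n) / 2 ^ j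

lemma tl_nonneg (n : ℕ) : 0 ≤ tl b hb n :=
  tsum_nonneg fun j => div_nonneg (dd_nonneg b hb _) (by positivity)

lemma tl_le_two (n : ℕ) : tl b hb n ≤ 2 := by
  have : ∑' j : ℕ, ((1 : ℝ) / 2) ^ j = 2 := tsum_geometric_two
  rw [← this]
  refine (summable_dd b hb n).tsum_le_tsum (fun j => ?_) summable_geometric_two
  rw [div_pow, one_pow]
  exact div_le_div_of_nonneg_right (dd_le_one b hb _) (by positivity)

lemma tl_succ (n : ℕ) : tl b hb n = dd b hb n + tl b hb (n + 1) / 2 := by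
  unfold tl
  rw [(summable_dd b hb n).tsum_eq_zero_add]
  simp only [zero_add, pow_zero, div_one]
  congr 1
  rw [← tsum_div_const]
  refine tsum_congr fun j => ?_
  rw [pow_succ, show j + 1 + n = j + (n + 1) by ring]
  field_simp

/-- the number `y` -/
noncomputable def yy : ℝ := tl b hb 0

/-- `y 2^n = (integer) + tl (n+1) / 2`. -/
lemma yy_mul_pow (n : ℕ) : ∃ F : ℤ, yy b hb * 2 ^ n = F + tl b hb (n + 1) / 2 := by
  classical
  induction n with
  | zero =>
    refine ⟨if 0 ∈ DS b hb then 1 else 0, ?_⟩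
    unfold yy
    rw [tl_succ, pow_zero, mul_one]
    unfold dd
    split_ifs <;> simp
  | succ n ih =>
    obtain ⟨F, hF⟩ := ih
    refine ⟨2 * F + if n + 1 ∈ DS b hb then 1 else 0, ?_⟩
    rw [pow_succ, ← mul_assoc, hF, tl_succ b hb (n + 1)]
    unfold dd
    split_ifs <;> push_cast <;> ring

/-- If `n+1, n+2 ∉ DS` then the `(n+1)`-st digit vanishes. -/
lemma digit_zero (n : ℕ) (h1 : n + 1 ∉ DS b hb) (h2 : n + 2 ∉ DS b hb) :
    ⌊yy b hb * 2 ^ (n + 1)⌋ - 2 * ⌊yy b hb * 2 ^ n⌋ = 0 := by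
  obtain ⟨F, hF⟩ := yy_mul_pow b hb n
  have e1 : tl b hb (n + 1) = tl b hb (n + 1 + 1) / 2 := by
    rw [tl_succ b hb (n + 1)]; simp [dd, h1]
  have e2 : tl b hb (n + 1 + 1) = tl b hb (n + 1 + 1 + 1) / 2 := by
    rw [tl_succ b hb (n + 1 + 1)]; simp [dd, h2]
  have h3 := tl_le_two b hb (n + 1 + 1 + 1)
  have h4 := tl_nonneg b hb (n + 1)
  have h5 : ⌊yy b hb * 2 ^ n⌋ = F := by
    rw [Int.floor_eq_iff, hF]
    constructor <;> linarith
  have h6 : ⌊yy b hb * 2 ^ (n + 1)⌋ = 2 * F := by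
    rw [Int.floor_eq_iff, pow_succ, ← mul_assoc, hF]
    push_cast
    constructor <;> linarith
  rw [h5, h6]; ring

/-- approximation of `y` by the finite stages -/
lemma yy_sub_yS (i : ℕ) :
    |yy b hb - yS (st b hb i).1| ≤ 2 / 2 ^ (st b hb i).2 := by
  classical
  set N := (st b hb i).2 with hN
  have h1 : ∀ M : ℕ, yy b hb = ∑ j ∈ range M, dd b hb j / 2 ^ j + tl b hb M / 2 ^ M := by
    intro M
    induction M with
    | zero => simp [yy]
    | succ M ih =>
      rw [Finset.sum_range_succ, ih, tl_succ b hb M, pow_succ]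
      field_simp
      ring
  have h2 : yS (st b hb i).1 = ∑ j ∈ range N, dd b hb j / 2 ^ j := by
    unfold yS dd
    have : (st b hb i).1 = (range N).filter (fun j => j ∈ DS b hb) := by
      ext j
      rw [Finset.mem_filter, Finset.mem_range]
      constructor
      · intro h
        have := st_lt b hb i j h
        exact ⟨this, (mem_DS_iff b hb i j this).mpr h⟩
      · rintro ⟨h, h'⟩
        exact (mem_DS_iff b hb i j h).mp h'
    rw [this, Finset.sum_filter]
    refine Finset.sum_congr rfl fun j _ => ?_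
    split_ifs <;> simp
  rw [h1 N, h2, add_sub_cancel_left, abs_of_nonneg (div_nonneg (tl_nonneg b hb N) (by positivity))]
  exact div_le_div_of_nonneg_right (tl_le_two b hb N) (by positivity)

lemma norm_e_sub (s t : ℝ) : ‖e s - e t‖ ≤ 2 * Real.pi * |s - t| := by
  have h1 : e s - e t = e t * (e (s - t) - 1) := by
    rw [mul_sub, mul_one, ← e_add]; congr 2; ring
  rw [h1, norm_mul, norm_e, one_mul]
  unfold e
  rw [show (2 * Real.pi * Complex.I * (s - t : ℝ) : ℂ) =
    Complex.I * ((2 * Real.pi * (s - t) : ℝ) : ℂ) by push_cast; ring]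
  refine (Real.norm_exp_I_mul_ofReal_sub_one_le (x := 2 * Real.pi * (s - t))).trans ?_
  rw [Real.norm_eq_abs, abs_mul, abs_of_pos (by positivity : 0 < 2 * Real.pi)]

lemma norm_W_sub (s t : ℝ) (N : ℕ) : ‖W s N - W t N‖ ≤ 2 * Real.pi * |s - t| * 2 ^ N := by
  unfold W
  rw [← Finset.sum_sub_distrib]
  calc ‖∑ n ∈ range N, (e (s * 2 ^ n) - e (t * 2 ^ n))‖
      ≤ ∑ n ∈ range N, ‖e (s * 2 ^ n) - e (t * 2 ^ n)‖ := norm_sum_le _ _
    _ ≤ ∑ n ∈ range N, 2 * Real.pi * |s - t| * 2 ^ n := by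
        refine Finset.sum_le_sum fun n _ => ?_
        refine (norm_e_sub _ _).trans (le_of_eq ?_)
        rw [← sub_mul, abs_mul, abs_of_pos (by positivity : (0:ℝ) < 2 ^ n)]
        ring
    _ ≤ 2 * Real.pi * |s - t| * 2 ^ N := by
        rw [← Finset.mul_sum]
        refine mul_le_mul_of_nonneg_left ?_ (by positivity)
        rw [geom_sum_eq (by norm_num)]
        have : (1 : ℝ) ≤ 2 ^ N := one_le_pow₀ (by norm_num)
        norm_num

/-- Weyl sums of `b y` along the sequence of stages. -/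
lemma weyl_sum (i : ℕ) (h : ℤ) (hne : h ≠ 0) (hh : |h| ≤ i) :
    ‖W (h * (b * yy b hb)) (st b hb (i + 1)).2‖ ≤
      1 / (i + 1) * (st b hb (i + 1)).2 + 4 * Real.pi * |(h : ℝ) * b| := by
  set N := (st b hb (i + 1)).2 with hN
  have h1 := (st_succ_spec b hb i).2.2.2.2 h hne hh
  have h2 := norm_W_sub (h * (b * yy b hb)) (h * b * yS (st b hb (i + 1)).1) N
  have h3 : |h * (b * yy b hb) - h * b * yS (st b hb (i + 1)).1| ≤ |(h : ℝ) * b| * (2 / 2 ^ N) := by
    rw [← mul_assoc, ← mul_sub, abs_mul]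
    exact mul_le_mul_of_nonneg_left (yy_sub_yS b hb (i + 1)) (abs_nonneg _)
  have h4 : ‖W (h * (b * yy b hb)) N‖ ≤ ‖W (h * b * yS (st b hb (i + 1)).1) N‖ +
      ‖W (h * (b * yy b hb)) N - W (h * b * yS (st b hb (i + 1)).1) N‖ := by
    have := norm_add_le (W (h * b * yS (st b hb (i + 1)).1) N)
      (W (h * (b * yy b hb)) N - W (h * b * yS (st b hb (i + 1)).1) N)
    simpa using this
  refine h4.trans (add_le_add h1 (h2.trans ?_))
  calc 2 * Real.pi * |h * (b * yy b hb) - h * b * yS (st b hb (i + 1)).1| * 2 ^ N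
      ≤ 2 * Real.pi * (|(h : ℝ) * b| * (2 / 2 ^ N)) * 2 ^ N := by gcongr
    _ = 4 * Real.pi * |(h : ℝ) * b| := by field_simp; ring

end Pool.Agent.H1R3.Det
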