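import Mathlib

set_option autoImplicit false

open MeasureTheory Filter Topology Set

namespace Pool.Agent.H1R3.Det

/-- The circle `R/Z`. -/
abbrev Circ : Type := AddCircle (1 : ℝ)

/-- average along a sequence -/
noncomputable def avg (x : ℕ → Circ) (h : Circ → ℂ) (M : ℕ) : ℂ :=
  (∑ m ∈ Finset.range M, h (x m)) / M

lemma integral_fourier_eq_zero {n : ℤ} (hn : n ≠ 0) :
    ∫ x : Circ, (fourier n x : ℂ) = 0 := by
  have ha : ∃ a : Circ, (fourier n a : ℂ) ≠ 1 := by
    refine ⟨((1 / (2 * n) : ℝ) : Circ), ?_⟩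
    rw [fourier_coe_apply]
    have hn' : (n : ℂ) ≠ 0 := by exact_mod_cast hn
    have : 2 * (Real.pi : ℂ) * Complex.I * n * ((1 / (2 * n) : ℝ) : ℂ) / ((1 : ℝ) : ℂ) =
        Real.pi * Complex.I := by
      push_cast
      field_simp
    rw [this, Complex.exp_pi_mul_I]
    norm_num
  obtain ⟨a, ha⟩ := ha
  have h1 : ∫ x : Circ, (fourier n (x + a) : ℂ) = ∫ x : Circ, (fourier n x : ℂ) :=
    integral_add_right_eq_self (fun x => (fourier n x : ℂ)) a
  have h2 : ∀ x : Circ, (fourier n (x + a) : ℂ) = fourier n x * fourier n a := by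
    intro x
    simp only [fourier_apply]
    rw [smul_add, AddCircle.toCircle_add]; simp
  simp_rw [h2] at h1
  rw [integral_mul_const] at h1
  have h3 : (∫ x : Circ, (fourier n x : ℂ)) * ((fourier n a : ℂ) - 1) = 0 := by
    rw [mul_sub, h1]; ring
  rcases mul_eq_zero.1 h3 with h | h
  · exact h
  · exact absurd (sub_eq_zero.1 h) ha

lemma avg_norm_sub_le (x : ℕ → Circ) (f g : C(Circ, ℂ)) (M : ℕ) :
    ‖avg x f M - avg x g M‖ ≤ ‖f - g‖ := by
  unfold avg
  rcases Nat.eq_zero_or_pos M with rfl | hM
  · simp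
  rw [← sub_div, ← Finset.sum_sub_distrib, norm_div, Complex.norm_natCast]
  rw [div_le_iff₀ (by exact_mod_cast hM)]
  calc ‖∑ m ∈ Finset.range M, (f (x m) - g (x m))‖
      ≤ ∑ m ∈ Finset.range M, ‖f (x m) - g (x m)‖ := norm_sum_le _ _
    _ ≤ ∑ _m ∈ Finset.range M, ‖f - g‖ := by
        gcongr with m _
        exact (f - g).norm_coe_le_norm _
    _ = ‖f - g‖ * M := by simp [mul_comm]

/-- Weyl criterion along a sequence of lengths. -/
theorem weyl_criterion (x : ℕ → Circ) (N : ℕ → ℕ) (hN : Tendsto N atTop atTop)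
    (hx : ∀ n : ℤ, n ≠ 0 → Tendsto (fun i => avg x (fun z => (fourier n z : ℂ)) (N i)) atTop (𝓝 0))
    (h : C(Circ, ℂ)) :
    Tendsto (fun i => avg x h (N i)) atTop (𝓝 (∫ z : Circ, h z)) := by
  have hmem : ∀ f ∈ (Submodule.span ℂ (range <| @fourier 1)),
      Tendsto (fun i => avg x f (N i)) atTop (𝓝 (∫ z : Circ, f z)) := by
    intro f hf
    induction hf using Submodule.span_induction with
    | mem f hf =>
      obtain ⟨n, rfl⟩ := hf
      by_cases hn : n = 0
      · subst hn
        have : ∀ M : ℕ, 0 < M → avg x (fun z => (fourier 0 z : ℂ)) M = 1 := by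
          intro M hM
          unfold avg
          simp only [fourier_zero, Finset.sum_const, Finset.card_range, nsmul_eq_mul, mul_one]
          have : (M : ℂ) ≠ 0 := by exact_mod_cast hM.ne'
          field_simp
        have hint : ∫ z : Circ, (fourier 0 z : ℂ) = 1 := by
          simp [fourier_zero, Measure.real]
        rw [hint]
        refine Tendsto.congr' ?_ tendsto_const_nhds
        filter_upwards [hN.eventually_gt_atTop 0] with i hi
        exact (this (N i) hi).symm
      · rw [integral_fourier_eq_zero hn]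
        exact hx n hn
    | zero =>
      simp [avg]
    | add f g hf hg ihf ihg =>
      have hi : ∫ z : Circ, (f + g) z = (∫ z : Circ, f z) + ∫ z : Circ, g z := by
        have := integral_add (μ := (volume : Measure Circ)) (f := f) (g := g)
          (f.continuous.integrable_of_hasCompactSupport (HasCompactSupport.of_compactSpace _))
          (g.continuous.integrable_of_hasCompactSupport (HasCompactSupport.of_compactSpace _))
        simpa using this
      rw [hi]
      refine (ihf.add ihg).congr (fun i => ?_)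
      unfold avg
      rw [← add_div, ← Finset.sum_add_distrib]; rfl
    | smul c f hf ihf =>
      have hi : ∫ z : Circ, (c • f) z = c * (∫ z : Circ, f z) := by
        simp [integral_const_mul]
      rw [hi]
      refine (ihf.const_mul c).congr (fun i => ?_)
      unfold avg
      simp only [ContinuousMap.coe_smul, Pi.smul_apply, smul_eq_mul]
      rw [← Finset.mul_sum, mul_div_assoc]
  rw [Metric.tendsto_atTop]
  intro ε hε
  have hcl : h ∈ (Submodule.span ℂ (range <| @fourier 1)).topologicalClosure := by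
    rw [span_fourier_closure_eq_top]; trivial
  rw [← SetLike.mem_coe, Submodule.topologicalClosure_coe, Metric.mem_closure_iff] at hcl
  obtain ⟨f, hf, hfd⟩ := hcl (ε / 3) (by positivity)
  obtain ⟨i₀, hi₀⟩ := Metric.tendsto_atTop.1 (hmem f hf) (ε / 3) (by positivity)
  refine ⟨i₀, fun i hi => ?_⟩
  have h1 := hi₀ i hi
  have h2 : ‖avg x h (N i) - avg x f (N i)‖ ≤ ‖h - f‖ := avg_norm_sub_le x h f (N i)
  have h3 : ‖(∫ z : Circ, f z) - ∫ z : Circ, h z‖ ≤ ‖h - f‖ := by
    rw [← integral_sub (f.continuous.integrable_of_hasCompactSupport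
      (HasCompactSupport.of_compactSpace _))
      (h.continuous.integrable_of_hasCompactSupport (HasCompactSupport.of_compactSpace _))]
    calc ‖∫ z : Circ, (f z - h z)‖ ≤ ‖h - f‖ * (volume : Measure Circ).real univ := by
          apply norm_integral_le_of_norm_le_const
          filter_upwards with z
          rw [norm_sub_rev]
          exact (h - f).norm_coe_le_norm z
      _ = ‖h - f‖ := by simp [Measure.real]
  have h4 : ‖h - f‖ < ε / 3 := by rw [← dist_eq_norm]; exact hfd
  calc dist (avg x h (N i)) (∫ z : Circ, h z)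
      ≤ dist (avg x h (N i)) (avg x f (N i)) + dist (avg x f (N i)) (∫ z : Circ, f z)
        + dist (∫ z : Circ, f z) (∫ z : Circ, h z) := dist_triangle4 _ _ _ _
    _ < ε / 3 + ε / 3 + ε / 3 := by
        rw [dist_eq_norm, dist_eq_norm (∫ z : Circ, f z)]
        linarith
    _ = ε := by ring

open Classical in
/-- Upper bound for the frequency of visits to a closed set. -/
theorem freq_lt_of_closed (x : ℕ → Circ) (N : ℕ → ℕ) (hN : Tendsto N atTop atTop)
    (hx : ∀ n : ℤ, n ≠ 0 → Tendsto (fun i => avg x (fun z => (fourier n z : ℂ)) (N i)) atTop (𝓝 0))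
    {K : Set Circ} (hK : IsClosed K) {c : ℝ} (hc : volume K < ENNReal.ofReal c) :
    ∀ᶠ i in atTop, (((Finset.range (N i)).filter (fun n => x n ∈ K)).card : ℝ) / N i < c := by
  have hc0 : 0 < c := by
    by_contra hcon
    rw [ENNReal.ofReal_of_nonpos (not_lt.mp hcon)] at hc
    exact not_lt_zero hc
  obtain ⟨c', hc'1, hc'2⟩ : ∃ c' : ℝ, volume K < ENNReal.ofReal c' ∧ c' < c := by
    obtain ⟨r, hr1, hr2⟩ := ENNReal.lt_iff_exists_nnreal_btwn.mp hc
    refine ⟨r, by simpa using hr1, ?_⟩
    have := (ENNReal.lt_ofReal_iff_toReal_lt ENNReal.coe_ne_top).mp hr2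
    simpa using this
  obtain ⟨U, hKU, hUo, hUv⟩ : ∃ U ⊇ K, IsOpen U ∧ volume U < ENNReal.ofReal c' :=
    K.exists_isOpen_lt_of_lt _ hc'1
  obtain ⟨g, hg0, hg1, hg01⟩ := exists_continuous_zero_one_of_isClosed hUo.isClosed_compl hK
    (by rw [disjoint_compl_left_iff_subset]; exact hKU)
  let h : C(Circ, ℂ) := ⟨fun z => (g z : ℂ), by fun_prop⟩
  have hc'0 : 0 < c' := by
    by_contra hcon
    rw [ENNReal.ofReal_of_nonpos (not_lt.mp hcon)] at hc'1
    exact not_lt_zero hc'1
  have hint : (∫ z : Circ, h z).re ≤ c' := by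
    have h1 : ∫ z : Circ, h z = ((∫ z : Circ, g z : ℝ) : ℂ) := by
      simp only [h, ContinuousMap.coe_mk]
      exact integral_ofReal
    rw [h1, Complex.ofReal_re]
    have h2 : ∫ z : Circ, g z ≤ ∫ z : Circ, U.indicator (fun _ => (1 : ℝ)) z := by
      apply integral_mono
      · exact g.continuous.integrable_of_hasCompactSupport (HasCompactSupport.of_compactSpace _)
      · exact (integrable_indicator_iff hUo.measurableSet).2 (integrableOn_const (by simp) )
      · intro z
        by_cases hz : z ∈ U
        · simp only [hz, indicator_of_mem]; exact (hg01 z).2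
        · simp only [hz, not_false_eq_true, indicator_of_notMem]
          exact le_of_eq (hg0 hz)
    rw [integral_indicator hUo.measurableSet] at h2
    simp only [integral_const, MeasurableSet.univ, measureReal_restrict_apply, univ_inter,
      smul_eq_mul, mul_one] at h2
    refine h2.trans ?_
    rw [Measure.real]
    exact ENNReal.toReal_le_of_le_ofReal hc'0.le hUv.le
  have hw := weyl_criterion x N hN hx h
  have hw' : Tendsto (fun i => (avg x h (N i)).re) atTop (𝓝 (∫ z : Circ, h z).re) :=
    (Complex.continuous_re.tendsto _).comp hw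
  have hev : ∀ᶠ i in atTop, (avg x h (N i)).re < c := by
    apply hw'.eventually_lt_const
    linarith
  filter_upwards [hev] with i hi
  refine lt_of_le_of_lt ?_ hi
  unfold avg
  have : (∑ m ∈ Finset.range (N i), h (x m)) / ((N i : ℕ) : ℂ) =
      (((∑ m ∈ Finset.range (N i), g (x m)) / (N i : ℕ) : ℝ) : ℂ) := by
    push_cast; rfl
  rw [this, Complex.ofReal_re]
  gcongr
  rw [Finset.card_filter]
  push_cast
  gcongr with m _
  split_ifs with hm
  · have := hg1 hm
    simp only [Pi.one_apply] at this
    rw [this]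
  · exact (hg01 _).1

end Pool.Agent.H1R3.Det
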