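import Pool.Agent.H1R3.Det.Construct
import Pool.Agent.H1R3.Det.Weyl

set_option autoImplicit false

open Filter Topology

namespace Pool.Agent.H1R3.Det

/-- the `(n+1)`-st binary digit -/
noncomputable def dig (z : ℝ) (n : ℕ) : ℤ := ⌊z * 2 ^ (n + 1)⌋ - 2 * ⌊z * 2 ^ n⌋

lemma dig_cases (z : ℝ) (n : ℕ) : dig z n = 0 ∨ dig z n = 1 := by
  unfold dig
  have h1 := Int.floor_le (z * 2 ^ n)
  have h2 := Int.lt_floor_add_one (z * 2 ^ n)
  have h3 : z * 2 ^ (n + 1) = 2 * (z * 2 ^ n) := by ring
  rw [h3]
  have h4 : 2 * ⌊z * 2 ^ n⌋ ≤ ⌊2 * (z * 2 ^ n)⌋ := by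
    apply Int.le_floor.mpr
    push_cast; linarith
  have h5 : ⌊2 * (z * 2 ^ n)⌋ < 2 * ⌊z * 2 ^ n⌋ + 2 := by
    apply Int.floor_lt.mpr
    push_cast; linarith
  omega

/-! ### density of the digit positions -/

open Classical in
/-- number of elements of `DS` below `M` -/
noncomputable def cDS (b : ℝ) (hb : Irrational b) (M : ℕ) : ℕ :=
  ((Finset.range M).filter (fun j => j ∈ DS b hb)).card

lemma cDS_le (b : ℝ) (hb : Irrational b) (l M : ℕ) :
    cDS b hb M ≤ (st b hb l).2 + (M / 2 ^ l + 1) := by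
  classical
  unfold cDS
  set A := (st b hb l).2 with hA
  have hsub : (Finset.range M).filter (fun j => j ∈ DS b hb) ⊆
      Finset.range A ∪ (Finset.range (M / 2 ^ l + 1)).image (fun i => 2 ^ l * i) := by
    intro j hj
    rw [Finset.mem_filter, Finset.mem_range] at hj
    rw [Finset.mem_union, Finset.mem_range, Finset.mem_image]
    by_cases h : j < A
    · exact Or.inl h
    · right
      obtain ⟨i, hi⟩ := DS_dvd b hb l j hj.2 (by omega)
      refine ⟨i, ?_, hi.symm⟩
      rw [Finset.mem_range, Nat.lt_succ_iff, Nat.le_div_iff_mul_le (by positivity)]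
      rw [mul_comm] at hi
      omega
  refine (Finset.card_le_card hsub).trans ((Finset.card_union_le _ _).trans ?_)
  rw [Finset.card_range]
  exact Nat.add_le_add_left (Finset.card_image_le.trans (by rw [Finset.card_range])) _

open Classical in
/-- bad positions -/
noncomputable def bad (b : ℝ) (hb : Irrational b) (N : ℕ) : ℕ :=
  ((Finset.range N).filter (fun n => n + 1 ∈ DS b hb ∨ n + 2 ∈ DS b hb)).card

lemma bad_le (b : ℝ) (hb : Irrational b) (N : ℕ) : bad b hb N ≤ 2 * cDS b hb (N + 2) := by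
  classical
  unfold bad
  rw [Finset.filter_or]
  refine (Finset.card_union_le _ _).trans ?_
  have h1 : ((Finset.range N).filter (fun n => n + 1 ∈ DS b hb)).card ≤ cDS b hb (N + 2) := by
    unfold cDS
    apply Finset.card_le_card_of_injOn (fun n => n + 1)
    · intro n hn
      simp only [Finset.coe_filter, Finset.mem_range, Set.mem_ofPred_eq] at hn ⊢
      exact ⟨by omega, hn.2⟩
    · intro a _ c _ h
      simpa using h
  have h2 : ((Finset.range N).filter (fun n => n + 2 ∈ DS b hb)).card ≤ cDS b hb (N + 2) := by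
    unfold cDS
    apply Finset.card_le_card_of_injOn (fun n => n + 2)
    · intro n hn
      simp only [Finset.coe_filter, Finset.mem_range, Set.mem_ofPred_eq] at hn ⊢
      exact ⟨by omega, hn.2⟩
    · intro a _ c _ h
      simpa using h
  omega

lemma tendsto_bad (b : ℝ) (hb : Irrational b) :
    Tendsto (fun N : ℕ => (bad b hb N : ℝ) / N) atTop (𝓝 0) := by
  rw [Metric.tendsto_atTop]
  intro δ hδ
  obtain ⟨l, hl⟩ := pow_unbounded_of_one_lt (8 / δ) (show (1 : ℝ) < 2 by norm_num)
  set A := (st b hb l).2 with hA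
  obtain ⟨N₀, hN₀⟩ := exists_nat_gt (4 * ((A : ℝ) + 3) / δ)
  refine ⟨N₀ + 1, fun N hN => ?_⟩
  have hNpos : (0 : ℝ) < N := by
    have : 0 < N := by omega
    exact_mod_cast this
  rw [Real.dist_eq, sub_zero, abs_of_nonneg (by positivity), div_lt_iff₀ hNpos]
  have h1 : (bad b hb N : ℝ) ≤ 2 * (A + ((N + 2) / 2 ^ l + 1)) := by
    have h2 := bad_le b hb N
    have h3 := cDS_le b hb l (N + 2)
    have h4 : (((N + 2) / 2 ^ l : ℕ) : ℝ) ≤ ((N + 2 : ℕ) : ℝ) / ((2 ^ l : ℕ) : ℝ) := Nat.cast_div_le
    have h5 : (bad b hb N : ℝ) ≤ 2 * (A + (((N + 2) / 2 ^ l : ℕ) + 1)) := by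
      exact_mod_cast h2.trans (Nat.mul_le_mul_left 2 h3)
    push_cast at h4
    linarith
  have h2l : (0 : ℝ) < 2 ^ l := by positivity
  have h6 : ((N : ℝ) + 2) / 2 ^ l ≤ (N + 2) * (δ / 8) := by
    rw [div_le_iff₀ h2l]
    rw [div_lt_iff₀ hδ] at hl
    nlinarith
  have h7 : (N₀ : ℝ) < N := by exact_mod_cast hN
  rw [div_lt_iff₀ hδ] at hN₀
  by_cases hδ1 : δ ≤ 8
  · nlinarith
  · push Not at hδ1
    have h8 : (bad b hb N : ℝ) ≤ N := by
      classical
      unfold bad
      have := Finset.card_filter_le (Finset.range N)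
        (fun n => n + 1 ∈ DS b hb ∨ n + 2 ∈ DS b hb)
      rw [Finset.card_range] at this
      exact_mod_cast this
    nlinarith

/-! ### `y` is deterministic -/

lemma deterministic_yy (b : ℝ) (hb : Irrational b) (ε : ℝ) (hε : 0 < ε) :
    ∃ N₀ : ℕ, ∀ N : ℕ, N₀ ≤ N →
      Real.negMulLog ((((Finset.range N).filter (fun n => dig (yy b hb) n = 0)).card : ℝ) / N) +
      Real.negMulLog ((((Finset.range N).filter (fun n => dig (yy b hb) n = 1)).card : ℝ) / N)
        ≤ ε := by
  classical
  have hzero : ∀ n, ¬ (n + 1 ∈ DS b hb ∨ n + 2 ∈ DS b hb) → dig (yy b hb) n = 0 := by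
    intro n hn
    rw [not_or] at hn
    exact digit_zero b hb n hn.1 hn.2
  have h1 : Tendsto (fun N : ℕ =>
      (((Finset.range N).filter (fun n => dig (yy b hb) n = 1)).card : ℝ) / N) atTop (𝓝 0) := by
    refine squeeze_zero (fun N => by positivity) (fun N => ?_) (tendsto_bad b hb)
    apply div_le_div_of_nonneg_right _ (Nat.cast_nonneg N)
    unfold bad
    exact_mod_cast Finset.card_le_card (fun n hn => by
      rw [Finset.mem_filter] at hn ⊢
      refine ⟨hn.1, ?_⟩
      by_contra hcon
      have := hzero n hcon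
      rw [hn.2] at this
      exact one_ne_zero this)
  have h0 : Tendsto (fun N : ℕ =>
      (((Finset.range N).filter (fun n => dig (yy b hb) n = 0)).card : ℝ) / N) atTop (𝓝 1) := by
    have hlow : Tendsto (fun N : ℕ => 1 - (bad b hb N : ℝ) / N) atTop (𝓝 1) := by
      simpa using tendsto_const_nhds.sub (tendsto_bad b hb)
    refine tendsto_of_tendsto_of_tendsto_of_le_of_le' hlow tendsto_const_nhds ?_ ?_
    · filter_upwards [eventually_gt_atTop 0] with N hN
      have hNpos : (0 : ℝ) < N := by exact_mod_cast hN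
      rw [sub_le_iff_le_add, ← add_div, le_div_iff₀ hNpos, one_mul]
      have hcard : N ≤ ((Finset.range N).filter (fun n => dig (yy b hb) n = 0)).card +
          bad b hb N := by
        unfold bad
        have h2 := Finset.card_filter_add_card_filter_not (s := Finset.range N)
          (fun n => n + 1 ∈ DS b hb ∨ n + 2 ∈ DS b hb)
        rw [Finset.card_range] at h2
        have h3 : ((Finset.range N).filter
            (fun n => ¬ (n + 1 ∈ DS b hb ∨ n + 2 ∈ DS b hb))).card ≤
            ((Finset.range N).filter (fun n => dig (yy b hb) n = 0)).card := by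
          apply Finset.card_le_card
          intro n hn
          rw [Finset.mem_filter] at hn ⊢
          exact ⟨hn.1, hzero n hn.2⟩
        omega
      exact_mod_cast hcard
    · filter_upwards [eventually_gt_atTop 0] with N hN
      have hNpos : (0 : ℝ) < N := by exact_mod_cast hN
      rw [div_le_one hNpos]
      have := Finset.card_filter_le (Finset.range N) (fun n => dig (yy b hb) n = 0)
      rw [Finset.card_range] at this
      exact_mod_cast this
  have hsum := ((Real.continuous_negMulLog.tendsto 1).comp h0).add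
    ((Real.continuous_negMulLog.tendsto 0).comp h1)
  rw [Real.negMulLog_one, Real.negMulLog_zero, add_zero] at hsum
  obtain ⟨N₀, hN₀⟩ := eventually_atTop.mp (hsum.eventually_le_const hε)
  exact ⟨N₀, fun N hN => hN₀ N hN⟩

end Pool.Agent.H1R3.Det
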