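import Pool.Agent.H1R3.Det.Final

set_option autoImplicit false

open Filter Topology MeasureTheory

namespace Pool.Agent.H1R3.Det

/-- value of a digit block -/
def P (d : ℕ → ℤ) : ℕ → ℤ
  | 0 => 0
  | m + 1 => 2 * P d m + d m

lemma floor_block (z : ℝ) (n : ℕ) (d : ℕ → ℤ) (k : ℕ) (h : ∀ i < k, dig z (n + i) = d i) :
    ⌊z * 2 ^ (n + k)⌋ = 2 ^ k * ⌊z * 2 ^ n⌋ + P d k := by
  induction k with
  | zero => simp [P]
  | succ k ih =>
    have h1 := h k (Nat.lt_succ_self k)
    unfold dig at h1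
    rw [ih (fun i hi => h i (hi.trans (Nat.lt_succ_self k)))] at h1
    rw [P, ← add_assoc n k 1]
    rw [pow_succ (2 : ℤ)]
    linarith

/-- centre of the dyadic interval of a digit block -/
noncomputable def ctr (k : ℕ) (d : ℕ → ℤ) : ℝ := (P d k + 1 / 2) / 2 ^ k

lemma dist_ctr (z : ℝ) (n k : ℕ) (d : ℕ → ℤ) (h : ∀ i < k, dig z (n + i) = d i) :
    ((z * 2 ^ n : ℝ) : Circ) ∈ Metric.closedBall ((ctr k d : ℝ) : Circ) (1 / 2 ^ (k + 1)) := by
  have h1 := floor_block z n d k h
  have h2 := Int.floor_le (z * 2 ^ (n + k))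
  have h3 := Int.lt_floor_add_one (z * 2 ^ (n + k))
  rw [h1] at h2 h3
  push_cast at h2 h3
  have hk : (0 : ℝ) < 2 ^ k := by positivity
  have h4 : z * 2 ^ (n + k) = 2 ^ k * (z * 2 ^ n) := by rw [pow_add]; ring
  rw [h4] at h2 h3
  rw [Metric.mem_closedBall, dist_eq_norm, ← AddCircle.coe_sub, UnitAddCircle.norm_eq]
  refine (round_le _ ⌊z * 2 ^ n⌋).trans ?_
  have h5 : z * 2 ^ n - ctr k d - ⌊z * 2 ^ n⌋ =
      (2 ^ k * (z * 2 ^ n) - (2 ^ k * ⌊z * 2 ^ n⌋ + P d k) - 1 / 2) / 2 ^ k := by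
    unfold ctr; field_simp; ring
  rw [h5, abs_div, abs_of_pos hk, pow_succ, div_le_div_iff₀ hk (by positivity)]
  have h6 : |2 ^ k * (z * 2 ^ n) - (2 ^ k * (⌊z * 2 ^ n⌋ : ℝ) + P d k) - 1 / 2| ≤ 1 / 2 := by
    rw [abs_le]; constructor <;> linarith
  nlinarith

lemma avg_fourier (z : ℝ) (h : ℤ) (M : ℕ) :
    avg (fun n => ((z * 2 ^ n : ℝ) : Circ)) (fun x => (fourier h x : ℂ)) M = W (h * z) M / M := by
  unfold avg W
  congr 1
  refine Finset.sum_congr rfl fun n _ => ?_
  show (fourier h ((z * 2 ^ n : ℝ) : Circ) : ℂ) = _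
  rw [fourier_coe_apply]
  unfold e
  congr 1
  push_cast
  ring

lemma tendsto_avg (b : ℝ) (hb : Irrational b) (h : ℤ) (hh : h ≠ 0) :
    Tendsto (fun i => avg (fun n => (((b * yy b hb) * 2 ^ n : ℝ) : Circ))
      (fun x => (fourier h x : ℂ)) (st b hb (i + 1)).2) atTop (𝓝 0) := by
  rw [tendsto_zero_iff_norm_tendsto_zero]
  have hN : Tendsto (fun i => ((st b hb (i + 1)).2 : ℝ)) atTop atTop := by
    apply tendsto_natCast_atTop_atTop.comp
    exact (st_snd_strictMono b hb).tendsto_atTop.comp (tendsto_add_atTop_nat 1)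
  have hlim : Tendsto (fun i : ℕ => (1 / ((i : ℝ) + 1)) +
      4 * Real.pi * |(h : ℝ) * b| / ((st b hb (i + 1)).2 : ℝ)) atTop (𝓝 (0 + 0)) := by
    refine Tendsto.add tendsto_one_div_add_atTop_nhds_zero_nat ?_
    exact hN.const_div_atTop _
  rw [add_zero] at hlim
  refine tendsto_of_tendsto_of_tendsto_of_le_of_le' tendsto_const_nhds hlim
    (Eventually.of_forall fun _ => norm_nonneg _) ?_
  filter_upwards [eventually_ge_atTop h.natAbs] with i hi
  rw [avg_fourier, norm_div, Complex.norm_natCast]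
  have hpos : (0 : ℝ) < (st b hb (i + 1)).2 := by
    have := le_st_snd b hb (i + 1)
    exact_mod_cast (by omega : 0 < (st b hb (i + 1)).2)
  rw [div_le_iff₀ hpos]
  have h1 := weyl_sum b hb i h hh (by rw [Int.abs_eq_natAbs]; exact_mod_cast hi)
  refine h1.trans (le_of_eq ?_)
  field_simp

/-- The block entropies of `b y` are large along the sequence. -/
lemma entropy_large (b : ℝ) (hb : Irrational b) (k : ℕ) (hk : 1 ≤ k) (N₀ : ℕ) :
    ∃ N : ℕ, N₀ ≤ N ∧ (k : ℝ) / 2 * Real.log 2 ≤ ∑ w : Fin k → Fin 2,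
      Real.negMulLog ((((Finset.range N).filter (fun n => ∀ i : Fin k,
        dig (b * yy b hb) (n + i) = ((w i : ℕ) : ℤ))).card : ℝ) / N) := by
  classical
  set z := b * yy b hb with hz
  let x : ℕ → Circ := fun n => ((z * 2 ^ n : ℝ) : Circ)
  let Nn : ℕ → ℕ := fun i => (st b hb (i + 1)).2
  have hNn : Tendsto Nn atTop atTop :=
    (st_snd_strictMono b hb).tendsto_atTop.comp (tendsto_add_atTop_nat 1)
  have hx : ∀ n : ℤ, n ≠ 0 → Tendsto (fun i => avg x (fun z => (fourier n z : ℂ)) (Nn i))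
      atTop (𝓝 0) := fun n hn => tendsto_avg b hb n hn
  set c : ℝ := Real.sqrt 2 / 2 ^ k with hc
  have hcpos : 0 < c := by positivity
  have hs2 : 1 < Real.sqrt 2 := by
    rw [Real.lt_sqrt (by norm_num)]; norm_num
  -- frequency of every word
  have hw : ∀ w : Fin k → Fin 2, ∀ᶠ i in atTop,
      ((((Finset.range (Nn i)).filter (fun n => ∀ i : Fin k,
        dig z (n + i) = ((w i : ℕ) : ℤ))).card : ℝ) / (Nn i)) < c := by
    intro w
    let d : ℕ → ℤ := fun i => if h : i < k then ((w ⟨i, h⟩ : ℕ) : ℤ) else 0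
    have hvol : volume (Metric.closedBall ((ctr k d : ℝ) : Circ) (1 / 2 ^ (k + 1))) <
        ENNReal.ofReal c := by
      rw [AddCircle.volume_closedBall]
      apply (ENNReal.ofReal_lt_ofReal_iff hcpos).mpr
      refine lt_of_le_of_lt (min_le_right _ _) ?_
      rw [hc, pow_succ, lt_div_iff₀ (by positivity)]
      have : 2 * (1 / ((2 : ℝ) ^ k * 2)) * 2 ^ k = 1 := by field_simp
      rw [this]; exact hs2
    have hev := freq_lt_of_closed x Nn hNn hx Metric.isClosed_closedBall hvol
    filter_upwards [hev] with i hi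
    refine lt_of_le_of_lt ?_ hi
    apply div_le_div_of_nonneg_right _ (Nat.cast_nonneg _)
    refine Nat.cast_le.mpr (Finset.card_le_card ?_)
    intro n hn
    rw [Finset.mem_filter] at hn ⊢
    refine ⟨hn.1, ?_⟩
    apply dist_ctr z n k d
    intro i hi
    have := hn.2 ⟨i, hi⟩
    simp only [d, hi, dif_pos]
    exact this
  have hall : ∀ᶠ i in atTop, ∀ w : Fin k → Fin 2,
      ((((Finset.range (Nn i)).filter (fun n => ∀ i : Fin k,
        dig z (n + i) = ((w i : ℕ) : ℤ))).card : ℝ) / (Nn i)) < c :=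
    eventually_all.mpr hw
  obtain ⟨i, hi1, hi2, hi3⟩ := (hall.and ((hNn.eventually_ge_atTop N₀).and
    (hNn.eventually_gt_atTop 0))).exists
  refine ⟨Nn i, hi2, ?_⟩
  set N := Nn i with hN
  have hNpos : (0 : ℝ) < N := by exact_mod_cast hi3
  set f : (Fin k → Fin 2) → ℝ := fun w =>
    (((Finset.range N).filter (fun n => ∀ i : Fin k,
        dig z (n + i) = ((w i : ℕ) : ℤ))).card : ℝ) / N with hf
  have hf0 : ∀ w, 0 ≤ f w := fun w => by positivity
  -- the frequencies sum to one
  have hsum : ∑ w, f w = 1 := by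
    rw [hf]
    simp only
    rw [← Finset.sum_div, div_eq_one_iff_eq hNpos.ne']
    let wd : ℕ → (Fin k → Fin 2) := fun n i => ⟨(dig z (n + i)).toNat, by
      rcases dig_cases z (n + i) with h | h <;> rw [h] <;> simp⟩
    have heq : ∀ w : Fin k → Fin 2, (Finset.range N).filter (fun n => ∀ i : Fin k,
        dig z (n + i) = ((w i : ℕ) : ℤ)) = (Finset.range N).filter (fun n => wd n = w) := by
      intro w
      apply Finset.filter_congr
      intro n _
      constructor
      · intro h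
        funext i
        apply Fin.ext
        simp only [wd]
        rw [h i]; simp
      · intro h i
        rw [← h]
        simp only [wd]
        rcases dig_cases z (n + i) with h | h <;> rw [h] <;> simp
    simp only [heq]
    have := Finset.card_eq_sum_card_fiberwise (f := wd) (s := Finset.range N)
      (t := (Finset.univ : Finset (Fin k → Fin 2))) (fun _ _ => Finset.mem_coe.mpr (Finset.mem_univ _))
    rw [Finset.card_range] at this
    exact_mod_cast this.symm
  -- entropy bound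
  have hterm : ∀ w, f w * (-Real.log c) ≤ Real.negMulLog (f w) := by
    intro w
    rw [Real.negMulLog, neg_mul, ← mul_neg]
    rcases (hf0 w).eq_or_lt with h | h
    · rw [← h]; simp
    · apply mul_le_mul_of_nonneg_left _ h.le
      apply neg_le_neg
      exact Real.log_le_log h (hi1 w).le
  have hlogc : (k : ℝ) / 2 * Real.log 2 ≤ -Real.log c := by
    rw [hc, Real.log_div (by positivity) (by positivity), Real.log_pow, Real.log_sqrt (by norm_num)]
    have hl2 : 0 < Real.log 2 := Real.log_pos (by norm_num)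
    have hk1 : (1 : ℝ) ≤ k := by exact_mod_cast hk
    nlinarith
  calc (k : ℝ) / 2 * Real.log 2 ≤ -Real.log c := hlogc
    _ = ∑ w, f w * (-Real.log c) := by rw [← Finset.sum_mul, hsum, one_mul]
    _ ≤ ∑ w, Real.negMulLog (f w) := Finset.sum_le_sum fun w _ => hterm w

end Pool.Agent.H1R3.Det
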