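import Pool.Agent.H1R3.Det.Basic

set_option autoImplicit false

open Finset Filter Topology

namespace Pool.Agent.H1R3.Det

/-- positions available at a stage: multiples of `q` in `[A, B)` -/
def J (q A B : ℕ) : Finset ℕ := (Finset.Ico A B).filter (fun j => q ∣ j)

lemma prod_small (x : ℝ) (hx : Irrational x) (q : ℕ) (hq : 0 < q) {η : ℝ} (hη : 0 < η) :
    ∃ D : ℕ, ∀ A B n n' : ℕ, A ≤ n' → n' + D ≤ n → n < B →
      ∏ j ∈ J q A B, |Real.cos (Real.pi * (x * (2 ^ n - 2 ^ n') / 2 ^ j))| ≤ η := by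
  classical
  set κ : ℝ := 1 / (4 * 2 ^ q) with hκ
  have hκpos : 0 < κ := by positivity
  have hκle : κ ≤ 1 / 4 := by
    apply one_div_le_one_div_of_le (by norm_num)
    have : (1 : ℝ) ≤ 2 ^ q := one_le_pow₀ (by norm_num)
    linarith
  set ρ : ℝ := Real.cos (Real.pi * (κ / 2)) with hρ
  have hρ0 : 0 ≤ ρ := by
    apply Real.cos_nonneg_of_mem_Icc
    have := Real.pi_pos
    constructor <;> nlinarith
  have hρ1 : ρ < 1 := by
    have h1 : ρ < Real.cos 0 := by
      apply Real.cos_lt_cos_of_nonneg_of_le_pi (le_refl _)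
      · have := Real.pi_pos; nlinarith
      · have := Real.pi_pos; positivity
    simpa using h1
  obtain ⟨P, hP⟩ := exists_pow_lt_of_lt_one hη hρ1
  obtain ⟨R, hR⟩ : ∃ R : ℕ, |x| / 2 ^ R ≤ κ / 2 := by
    obtain ⟨R, hR⟩ := pow_unbounded_of_one_lt (|x| / (κ / 2)) (show (1 : ℝ) < 2 by norm_num)
    refine ⟨R, ?_⟩
    rw [div_lt_iff₀ (by positivity)] at hR
    rw [div_le_iff₀ (by positivity)]
    linarith
  have hF : ∀ c : ℕ, ∃ F : Finset ℕ, F.card = P ∧
      ∀ m ∈ F, m % q = c % q ∧ κ ≤ nd (x * 2 ^ m) := by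
    intro c
    have hinf : {m : ℕ | m % q = c % q ∧ κ ≤ nd (x * 2 ^ m)}.Infinite := by
      rw [← Nat.frequently_atTop_iff_infinite, Filter.frequently_atTop]
      intro M
      obtain ⟨m, h1, h2, h3⟩ := exists_nd_ge x hx q hq c M
      exact ⟨m, h1, h2, h3⟩
    obtain ⟨F, hF1, hF2⟩ := hinf.exists_subset_card_eq P
    exact ⟨F, hF2, fun m hm => hF1 hm⟩
  choose F hFcard hFmem using hF
  set K : ℕ := (Finset.range q).sup (fun c => (F c).sup id + 1) with hK
  refine ⟨K + R, ?_⟩
  intro A B n n' hA hn hB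
  set c := n % q with hc
  have hcq : c < q := Nat.mod_lt _ hq
  have hmK : ∀ m ∈ F c, m < K := by
    intro m hm
    have h1 : m ≤ (F c).sup id := Finset.le_sup (f := id) hm
    have h2 : (F c).sup id + 1 ≤ K :=
      Finset.le_sup (f := fun c => (F c).sup id + 1) (Finset.mem_range.mpr hcq)
    omega
  set J' : Finset ℕ := (F c).image (fun m => n - m) with hJ'
  have hinj : Set.InjOn (fun m => n - m) (F c : Set ℕ) := by
    intro a ha b hb hab
    have h1 := hmK a ha
    have h2 := hmK b hb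
    simp only at hab
    omega
  have hsub : J' ⊆ J q A B := by
    intro j hj
    obtain ⟨m, hm, rfl⟩ := Finset.mem_image.mp hj
    have h1 := hmK m hm
    have h2 := (hFmem c m hm).1
    rw [J, Finset.mem_filter, Finset.mem_Ico]
    refine ⟨⟨by omega, by omega⟩, ?_⟩
    apply (Nat.modEq_iff_dvd' (by omega)).mp
    show m % q = n % q
    rw [h2, hc, Nat.mod_mod]
  have hle1 : ∀ t : ℝ, |Real.cos t| ≤ 1 := fun t => Real.abs_cos_le_one t
  calc ∏ j ∈ J q A B, |Real.cos (Real.pi * (x * (2 ^ n - 2 ^ n') / 2 ^ j))|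
      = (∏ j ∈ J q A B \ J', |Real.cos (Real.pi * (x * (2 ^ n - 2 ^ n') / 2 ^ j))|) *
        ∏ j ∈ J', |Real.cos (Real.pi * (x * (2 ^ n - 2 ^ n') / 2 ^ j))| :=
        (Finset.prod_sdiff hsub).symm
    _ ≤ 1 * ρ ^ P := by
        apply mul_le_mul
        · exact Finset.prod_le_one (fun _ _ => abs_nonneg _) (fun _ _ => hle1 _)
        · rw [hJ', Finset.prod_image hinj, ← hFcard c, ← Finset.prod_const]
          apply Finset.prod_le_prod (fun _ _ => abs_nonneg _)
          intro m hm
          have h1 := hmK m hm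
          have h2 := (hFmem c m hm).2
          rw [hρ]
          apply abs_cos_le (by positivity)
          have h3 : x * (2 ^ n - 2 ^ n') / 2 ^ (n - m) = x * 2 ^ m - x / 2 ^ (n - m - n') := by
            have e1 : (2 : ℝ) ^ n = 2 ^ (n - m) * 2 ^ m := by
              rw [← pow_add]; congr 1; omega
            have e2 : (2 : ℝ) ^ (n - m) = 2 ^ (n - m - n') * 2 ^ n' := by
              rw [← pow_add]; congr 1; omega
            rw [mul_sub, sub_div, e1]
            congr 1
            · field_simp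
            · rw [e2]; field_simp
          rw [h3]
          have h4 := nd_sub_ge (x * 2 ^ m) (x / 2 ^ (n - m - n'))
          have h5 : |x / 2 ^ (n - m - n')| ≤ κ / 2 := by
            rw [abs_div, abs_of_pos (by positivity : (0:ℝ) < 2 ^ (n - m - n'))]
            refine le_trans ?_ hR
            apply div_le_div_of_nonneg_left (abs_nonneg _) (by positivity)
            exact pow_le_pow_right₀ (by norm_num) (by omega)
          linarith
        · exact Finset.prod_nonneg (fun _ _ => abs_nonneg _)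
        · norm_num
    _ ≤ η := by rw [one_mul]; exact hP.le

/-- Counting pairs. -/
lemma double_sum_le (f : ℕ → ℕ → ℝ) (A D B : ℕ) (hD : 0 < D) {η : ℝ} (hη : 0 ≤ η)
    (h1 : ∀ n n', f n n' ≤ 1) (hsymm : ∀ n n', f n n' = f n' n)
    (h2 : ∀ n n', A ≤ n' → n' + D ≤ n → n < B → f n n' ≤ η) :
    ∑ n ∈ range B, ∑ n' ∈ range B, f n n' ≤ η * B ^ 2 + (2 * A + 2 * D) * B := by
  classical
  have hpt : ∀ n ∈ range B, ∀ n' ∈ range B, f n n' ≤ η + (if n < A then 1 else 0) +
      (if n' < A then 1 else 0) + (if n' ∈ Finset.Ioo (n - D) (n + D) ∨ n' = n - D then 1 else 0) := by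
    intro n hn n' hn'
    have hn := Finset.mem_range.mp hn
    have hn' := Finset.mem_range.mp hn'
    by_cases ha : n < A
    · rw [if_pos ha]
      have := h1 n n'
      have e1 : (0 : ℝ) ≤ (if n' < A then (1 : ℝ) else 0) := by split_ifs <;> norm_num
      have e2 : (0 : ℝ) ≤ (if n' ∈ Finset.Ioo (n - D) (n + D) ∨ n' = n - D then (1 : ℝ) else 0) := by
        split_ifs <;> norm_num
      linarith
    by_cases hb : n' < A
    · rw [if_pos hb]
      have := h1 n n'
      have e1 : (0 : ℝ) ≤ (if n < A then (1 : ℝ) else 0) := by split_ifs <;> norm_num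
      have e2 : (0 : ℝ) ≤ (if n' ∈ Finset.Ioo (n - D) (n + D) ∨ n' = n - D then (1 : ℝ) else 0) := by
        split_ifs <;> norm_num
      linarith
    by_cases hc : n' ∈ Finset.Ioo (n - D) (n + D) ∨ n' = n - D
    · rw [if_pos hc]
      have := h1 n n'
      have e1 : (0 : ℝ) ≤ (if n < A then (1 : ℝ) else 0) := by split_ifs <;> norm_num
      have e2 : (0 : ℝ) ≤ (if n' < A then (1 : ℝ) else 0) := by split_ifs <;> norm_num
      linarith
    · rw [if_neg ha, if_neg hb, if_neg hc]
      have hc' : n' + D ≤ n ∨ n + D ≤ n' := by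
        rw [Finset.mem_Ioo] at hc
        omega
      rcases hc' with h | h
      · have := h2 n n' (by omega) h hn
        linarith
      · have := h2 n' n (by omega) h hn'
        rw [hsymm]
        linarith
  have hrow : ∀ n ∈ range B, ∑ n' ∈ range B, f n n' ≤
      η * B + (if n < A then 1 else 0) * B + A + 2 * D := by
    intro n hn
    calc ∑ n' ∈ range B, f n n' ≤ ∑ n' ∈ range B, (η + (if n < A then 1 else 0) +
      (if n' < A then 1 else 0) + (if n' ∈ Finset.Ioo (n - D) (n + D) ∨ n' = n - D then 1 else 0)) :=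
          Finset.sum_le_sum (hpt n hn)
      _ = η * B + (if n < A then 1 else 0) * B + ∑ n' ∈ range B, (if n' < A then (1:ℝ) else 0) +
          ∑ n' ∈ range B, (if n' ∈ Finset.Ioo (n - D) (n + D) ∨ n' = n - D then (1:ℝ) else 0) := by
          rw [Finset.sum_add_distrib, Finset.sum_add_distrib]
          simp only [Finset.sum_const, Finset.card_range, nsmul_eq_mul]
          ring
      _ ≤ η * B + (if n < A then 1 else 0) * B + A + 2 * D := by
          have e1 : ∑ n' ∈ range B, (if n' < A then (1:ℝ) else 0) ≤ A := by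
            rw [Finset.sum_boole]
            have : ((range B).filter (fun n' => n' < A)).card ≤ A := by
              calc _ ≤ (range A).card := Finset.card_le_card (fun x hx => by
                    rw [Finset.mem_filter] at hx; exact Finset.mem_range.mpr hx.2)
                _ = A := Finset.card_range A
            exact_mod_cast this
          have e2 : ∑ n' ∈ range B, (if n' ∈ Finset.Ioo (n - D) (n + D) ∨ n' = n - D then (1:ℝ) else 0)
              ≤ 2 * D := by
            rw [Finset.sum_boole]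
            have : ((range B).filter (fun n' => n' ∈ Finset.Ioo (n - D) (n + D) ∨ n' = n - D)).card
                ≤ 2 * D := by
              calc _ ≤ (Finset.Ico (n - D) (n + D)).card := Finset.card_le_card (fun x hx => by
                    rw [Finset.mem_filter, Finset.mem_Ioo] at hx
                    rw [Finset.mem_Ico]; omega)
                _ ≤ 2 * D := by rw [Nat.card_Ico]; omega
            exact_mod_cast this
          linarith
  calc ∑ n ∈ range B, ∑ n' ∈ range B, f n n'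
      ≤ ∑ n ∈ range B, (η * B + (if n < A then 1 else 0) * B + A + 2 * D) :=
        Finset.sum_le_sum hrow
    _ = η * B * B + (∑ n ∈ range B, (if n < A then (1:ℝ) else 0)) * B + (A + 2 * D) * B := by
        rw [Finset.sum_mul]
        simp only [Finset.sum_add_distrib, Finset.sum_const, Finset.card_range, nsmul_eq_mul]
        ring
    _ ≤ η * B ^ 2 + (2 * A + 2 * D) * B := by
        have e1 : ∑ n' ∈ range B, (if n' < A then (1:ℝ) else 0) ≤ A := by
          rw [Finset.sum_boole]
          have : ((range B).filter (fun n' => n' < A)).card ≤ A := by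
            calc _ ≤ (range A).card := Finset.card_le_card (fun x hx => by
                  rw [Finset.mem_filter] at hx; exact Finset.mem_range.mpr hx.2)
              _ = A := Finset.card_range A
          exact_mod_cast this
        have hB : (0 : ℝ) ≤ B := Nat.cast_nonneg B
        nlinarith

/-- The real number with binary digits `1` exactly at the positions in `S`. -/
noncomputable def yS (S : Finset ℕ) : ℝ := ∑ j ∈ S, (1 : ℝ) / 2 ^ j

/-- exponential sum -/
noncomputable def W (θ : ℝ) (N : ℕ) : ℂ := ∑ n ∈ range N, e (θ * 2 ^ n)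

lemma normSq_W (θ : ℝ) (N : ℕ) :
    ((‖W θ N‖ ^ 2 : ℝ) : ℂ) = ∑ n ∈ range N, ∑ n' ∈ range N, e (θ * (2 ^ n - 2 ^ n')) := by
  have h1 : ((‖W θ N‖ ^ 2 : ℝ) : ℂ) = W θ N * (starRingEnd ℂ) (W θ N) := by
    rw [Complex.mul_conj, Complex.normSq_eq_norm_sq]
  rw [h1, W, map_sum, Finset.sum_mul_sum]
  refine Finset.sum_congr rfl fun n _ => Finset.sum_congr rfl fun n' _ => ?_
  rw [← e_neg, ← e_add]
  congr 1; ring

/-- Averaging over all subsets of `J`. -/
lemma sum_powerset_normSq (b : ℝ) (y₀ : ℝ) (Js : Finset ℕ) (N : ℕ) :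
    ∑ T ∈ Js.powerset, ‖W (b * (y₀ + yS T)) N‖ ^ 2 ≤
      2 ^ Js.card * ∑ n ∈ range N, ∑ n' ∈ range N,
        ∏ j ∈ Js, |Real.cos (Real.pi * (b * (2 ^ n - 2 ^ n') / 2 ^ j))| := by
  have h1 : ((∑ T ∈ Js.powerset, ‖W (b * (y₀ + yS T)) N‖ ^ 2 : ℝ) : ℂ) =
      ∑ n ∈ range N, ∑ n' ∈ range N, e (b * y₀ * (2 ^ n - 2 ^ n')) *
        ∏ j ∈ Js, (1 + e (b * (2 ^ n - 2 ^ n') / 2 ^ j)) := by
    rw [Complex.ofReal_sum, Finset.sum_congr rfl (fun T _ => normSq_W _ _)]
    rw [Finset.sum_comm]
    refine Finset.sum_congr rfl fun n _ => ?_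
    rw [Finset.sum_comm]
    refine Finset.sum_congr rfl fun n' _ => ?_
    rw [Finset.prod_one_add, Finset.mul_sum]
    refine Finset.sum_congr rfl fun T _ => ?_
    rw [← e_sum, ← e_add]
    congr 1
    unfold yS
    rw [mul_add, add_mul]
    congr 1
    rw [Finset.mul_sum, Finset.sum_mul]
    refine Finset.sum_congr rfl fun j _ => ?_
    ring
  have h2 : ‖((∑ T ∈ Js.powerset, ‖W (b * (y₀ + yS T)) N‖ ^ 2 : ℝ) : ℂ)‖ =
      ∑ T ∈ Js.powerset, ‖W (b * (y₀ + yS T)) N‖ ^ 2 := by
    rw [Complex.norm_real, Real.norm_eq_abs, abs_of_nonneg]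
    exact Finset.sum_nonneg fun _ _ => by positivity
  rw [← h2, h1]
  refine (norm_sum_le _ _).trans ?_
  rw [Finset.mul_sum]
  refine Finset.sum_le_sum fun n _ => ?_
  refine (norm_sum_le _ _).trans ?_
  rw [Finset.mul_sum]
  refine Finset.sum_le_sum fun n' _ => ?_
  rw [norm_mul, norm_e, one_mul, norm_prod]
  simp only [norm_one_add_e]
  rw [Finset.prod_mul_distrib, Finset.prod_const]

/-- One stage of the construction. -/
lemma stage (b : ℝ) (hb : Irrational b) (S : Finset ℕ) (q : ℕ) (hq : 0 < q) (A H N₀ : ℕ)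
    {δ : ℝ} (hδ : 0 < δ) :
    ∃ B : ℕ, A < B ∧ N₀ ≤ B ∧ ∃ T ⊆ J q A B, ∀ h : ℤ, h ≠ 0 → |h| ≤ H →
      ‖W (h * b * (yS S + yS T)) B‖ ≤ δ * B := by
  classical
  set Hs : Finset ℤ := (Finset.Icc (-(H : ℤ)) H).erase 0 with hHs
  have hmem : ∀ h : ℤ, h ∈ Hs ↔ h ≠ 0 ∧ |h| ≤ H := by
    intro h
    rw [hHs, Finset.mem_erase, Finset.mem_Icc, abs_le]
  set η : ℝ := δ ^ 2 / (2 * (Hs.card + 1)) with hη
  have hηpos : 0 < η := by positivity
  have hirr : ∀ h : ℤ, h ≠ 0 → Irrational (h * b) := fun h hh => hb.intCast_mul hh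
  have hD : ∀ h : ℤ, ∃ D : ℕ, h ≠ 0 → ∀ A B n n' : ℕ, A ≤ n' → n' + D ≤ n → n < B →
      ∏ j ∈ J q A B, |Real.cos (Real.pi * ((h * b) * (2 ^ n - 2 ^ n') / 2 ^ j))| ≤ η := by
    intro h
    by_cases hh : h = 0
    · exact ⟨0, fun hne => absurd hh hne⟩
    · obtain ⟨D, hD⟩ := prod_small (h * b) (hirr h hh) q hq hηpos
      exact ⟨D, fun _ => hD⟩
  choose D hD using hD
  set D' : ℕ := Hs.sup D + 1 with hD'
  obtain ⟨B, hB⟩ := exists_nat_gt (max ((A : ℝ) + 1) (max (N₀ : ℝ)
    ((2 * A + 2 * D') * (Hs.card + 1) * 2 / δ ^ 2)))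
  have hB1 : (A : ℝ) + 1 < B := lt_of_le_of_lt (le_max_left _ _) hB
  have hB2 : (N₀ : ℝ) < B := lt_of_le_of_lt ((le_max_left _ _).trans (le_max_right _ _)) hB
  have hB3 : (2 * A + 2 * D') * (Hs.card + 1) * 2 / δ ^ 2 < B :=
    lt_of_le_of_lt ((le_max_right _ _).trans (le_max_right _ _)) hB
  have hBpos : (0 : ℝ) < B := by
    have : (0 : ℝ) ≤ A := Nat.cast_nonneg A
    linarith
  refine ⟨B, by exact_mod_cast (by linarith : (A : ℝ) < B), by exact_mod_cast hB2.le, ?_⟩
  set Js := J q A B with hJs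
  -- the average
  have havg : ∑ T ∈ Js.powerset, ∑ h ∈ Hs, ‖W (h * b * (yS S + yS T)) B‖ ^ 2 ≤
      ∑ T ∈ Js.powerset, (δ * B) ^ 2 := by
    rw [Finset.sum_comm, Finset.sum_const, Finset.card_powerset, nsmul_eq_mul]
    have hper : ∀ h ∈ Hs, ∑ T ∈ Js.powerset, ‖W (h * b * (yS S + yS T)) B‖ ^ 2 ≤
        2 ^ Js.card * (η * B ^ 2 + (2 * A + 2 * D') * B) := by
      intro h hh
      have hne := ((hmem h).mp hh).1
      refine (sum_powerset_normSq (h * b) (yS S) Js B).trans ?_
      refine mul_le_mul_of_nonneg_left ?_ (by positivity)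
      refine double_sum_le _ A D' B (Nat.succ_pos _) hηpos.le ?_ ?_ ?_
      · intro n n'
        exact Finset.prod_le_one (fun _ _ => abs_nonneg _) (fun _ _ => Real.abs_cos_le_one _)
      · intro n n'
        refine Finset.prod_congr rfl fun j _ => ?_
        rw [← Real.cos_neg]
        congr 2
        ring
      · intro n n' h1 h2 h3
        refine hD h hne A B n n' h1 ?_ h3
        have : D h ≤ Hs.sup D := Finset.le_sup hh
        omega
    calc ∑ h ∈ Hs, ∑ T ∈ Js.powerset, ‖W (h * b * (yS S + yS T)) B‖ ^ 2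
        ≤ ∑ h ∈ Hs, 2 ^ Js.card * (η * B ^ 2 + (2 * A + 2 * D') * B) := Finset.sum_le_sum hper
      _ = 2 ^ Js.card * (Hs.card * (η * B ^ 2 + (2 * A + 2 * D') * B)) := by
          rw [Finset.sum_const, nsmul_eq_mul]; ring
      _ ≤ 2 ^ Js.card * (δ * B) ^ 2 := by
          refine mul_le_mul_of_nonneg_left ?_ (by positivity)
          have hc : (0 : ℝ) ≤ Hs.card := Nat.cast_nonneg _
          have h1 : (Hs.card : ℝ) * (η * B ^ 2) ≤ δ ^ 2 * B ^ 2 / 2 := by
            have : (Hs.card : ℝ) * η ≤ δ ^ 2 / 2 := by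
              rw [hη, ← mul_div_assoc, div_le_div_iff₀ (by positivity) (by positivity)]
              have : 0 ≤ δ ^ 2 := by positivity
              nlinarith
            nlinarith [sq_nonneg (B : ℝ)]
          have h2 : (Hs.card : ℝ) * ((2 * A + 2 * D') * B) ≤ δ ^ 2 * B ^ 2 / 2 := by
            rw [div_lt_iff₀ (by positivity)] at hB3
            have hA : (0 : ℝ) ≤ 2 * A + 2 * D' := by positivity
            have : (Hs.card : ℝ) * (2 * A + 2 * D') ≤ B * δ ^ 2 / 2 := by
              nlinarith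
            nlinarith
          nlinarith
      _ = ((2 ^ Js.card : ℕ) : ℝ) * (δ * B) ^ 2 := by push_cast; ring
  obtain ⟨T, hT, hTle⟩ := Finset.exists_le_of_sum_le (Finset.powerset_nonempty Js) havg
  refine ⟨T, Finset.mem_powerset.mp hT, fun h hne habs => ?_⟩
  have h1 : ‖W (h * b * (yS S + yS T)) B‖ ^ 2 ≤ (δ * B) ^ 2 := by
    refine le_trans ?_ hTle
    exact Finset.single_le_sum (f := fun h : ℤ => ‖W (h * b * (yS S + yS T)) B‖ ^ 2)
      (fun _ _ => by positivity) ((hmem h).mpr ⟨hne, habs⟩)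
  exact (pow_le_pow_iff_left₀ (norm_nonneg _) (by positivity) (by norm_num)).mp h1

end Pool.Agent.H1R3.Det
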